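import Pool.Agent.H25.EE.TargetsB

/-! Row DUAL of the board ee_modules: Hermite interpolation. -/

set_option autoImplicit false

open Polynomial Finset

namespace Pool.Agent.H60.EE

open Pool.Agent.H25.EE

theorem pf_DUAL (hRL : T_RL) : T_DUAL := by
  classical
  intro τ _ S ω I ρ δ E Q D u hρ hδ hδ1 hE hQ hD hω hsep hprod hu n hn
  obtain ⟨k, hk⟩ : ∃ k : ℕ, k = ∑ x ∈ S, I x := ⟨_, rfl⟩
  obtain ⟨Tt, hT⟩ : ∃ Tt : Finset (Σ _ : τ, ℕ), Tt = S.sigma fun x => range (I x) := ⟨_, rfl⟩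
  have hcard : Tt.card = k := by
    rw [hT, hk, card_sigma]
    simp only [card_range]
  have hmem : ∀ (x : τ) (i : ℕ), (⟨x, i⟩ : Σ _ : τ, ℕ) ∈ Tt ↔ x ∈ S ∧ i < I x := by
    intro x i
    rw [hT, mem_sigma]
    simp only [mem_range]
  obtain ⟨V, hV⟩ : ∃ V : (Σ _ : τ, ℕ) → ℕ → ℂ,
      V = fun a m => (m.descFactorial a.2 : ℂ) * ω a.1 ^ (m - a.2) := ⟨_, rfl⟩
  obtain ⟨ex, hexd⟩ : ∃ ex : ({a // a ∈ Tt} → ℂ) → τ → ℕ → ℂ, ∀ c x i,
      ex c x i = if h : (⟨x, i⟩ : Σ _ : τ, ℕ) ∈ Tt then c ⟨_, h⟩ else 0 :=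
    ⟨fun c x i => if h : (⟨x, i⟩ : Σ _ : τ, ℕ) ∈ Tt then c ⟨_, h⟩ else 0, fun _ _ _ => rfl⟩
  have hexa : ∀ (c : {a // a ∈ Tt} → ℂ) (a : {a // a ∈ Tt}), ex c a.1.1 a.1.2 = c a := by
    intro c a
    rw [hexd]
    exact dif_pos a.2
  have hex : ∀ (c : {a // a ∈ Tt} → ℂ) (m : ℕ), ∑ x ∈ S, ∑ i ∈ range (I x),
      ex c x i * ((m.descFactorial i : ℂ) * ω x ^ (m - i)) =
      ∑ a : {a // a ∈ Tt}, c a * V a.1 m := by
    intro c m
    rw [Finset.sum_sigma' S (fun x => range (I x))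
      (fun x i => ex c x i * ((m.descFactorial i : ℂ) * ω x ^ (m - i))), ← hT,
      ← Finset.sum_coe_sort Tt
        (fun a => ex c a.1 a.2 * ((m.descFactorial a.2 : ℂ) * ω a.1 ^ (m - a.2)))]
    refine sum_congr rfl fun a _ => ?_
    rw [hexa, hV]
  obtain ⟨Φ, hΦ⟩ : ∃ Φ : ({a // a ∈ Tt} → ℂ) →ₗ[ℂ] (Fin k → ℂ),
      ∀ c m, Φ c m = ∑ a : {a // a ∈ Tt}, c a * V a.1 m := by
    refine ⟨{ toFun := fun c m => ∑ a : {a // a ∈ Tt}, c a * V a.1 m,
              map_add' := ?_, map_smul' := ?_ }, fun _ _ => rfl⟩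
    · intro c c'
      funext m
      rw [Pi.add_apply, ← sum_add_distrib]
      refine sum_congr rfl fun a _ => ?_
      rw [Pi.add_apply, add_mul]
    · intro r c
      funext m
      rw [RingHom.id_apply, Pi.smul_apply, smul_eq_mul, mul_sum]
      refine sum_congr rfl fun a _ => ?_
      rw [Pi.smul_apply, smul_eq_mul, mul_assoc]
  have hinj : Function.Injective Φ := by
    rw [← LinearMap.ker_eq_bot, LinearMap.ker_eq_bot']
    intro c hc
    funext a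
    have ha := (hmem a.1.1 a.1.2).1 a.2
    have h1 := hRL τ S ω I (ex c) ρ δ 0 Q D hρ hδ hδ1 le_rfl hQ hD hω hsep hprod (by
      intro m hm
      rw [hex c m]
      rw [← hk] at hm
      have h2 : Φ c ⟨m, hm⟩ = 0 := by
        rw [hc]
        rfl
      rw [hΦ] at h2
      rw [h2]
      simp) a.1.1 ha.1 a.1.2 ha.2
    rw [zero_mul, zero_mul, hexa] at h1
    have h3 : ‖c a‖ = 0 := le_antisymm h1 (norm_nonneg _)
    exact norm_eq_zero.1 h3
  have hsurj : Function.Surjective Φ :=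
    (LinearMap.injective_iff_surjective_of_finrank_eq_finrank (by
      rw [Module.finrank_fintype_fun_eq_card, Module.finrank_fintype_fun_eq_card,
        Fintype.card_fin, Fintype.card_coe, hcard])).1 hinj
  rw [← hk] at hn
  obtain ⟨c, hc⟩ := hsurj (Pi.single ⟨n, hn⟩ 1)
  have hρ0 : 0 < ρ := by linarith
  have hcm : ∀ m (hm : m < k), ∑ a : {a // a ∈ Tt}, c a * V a.1 m = if m = n then 1 else 0 := by
    intro m hm
    have h2 := hΦ c ⟨m, hm⟩
    rw [hc] at h2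
    rw [← h2]
    by_cases hmn : m = n
    · subst hmn
      rw [if_pos rfl, Pi.single_eq_same]
    · rw [if_neg hmn, Pi.single_eq_of_ne]
      intro h3
      exact hmn (Fin.mk.inj_iff.1 h3)
  obtain ⟨Λ, hΛ⟩ : ∃ Λ : ℝ, Λ = ((2 * ρ) ^ k / Q) * (2 * D * (k : ℝ) / δ) ^ D := ⟨_, rfl⟩
  have hcb : ∀ a : {a // a ∈ Tt}, ‖c a‖ ≤ (ρ ^ n)⁻¹ * Λ := by
    intro a
    have ha := (hmem a.1.1 a.1.2).1 a.2
    have h1 := hRL τ S ω I (ex c) ρ δ (ρ ^ n)⁻¹ Q D hρ hδ hδ1 (by positivity) hQ hD hω hsep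
      hprod (by
      intro m hm
      rw [hex c m]
      rw [← hk] at hm
      rw [hcm m hm]
      by_cases hmn : m = n
      · rw [if_pos hmn, hmn, norm_one, inv_mul_cancel₀ (by positivity)]
      · rw [if_neg hmn, norm_zero]
        positivity) a.1.1 ha.1 a.1.2 ha.2
    rw [hexa, ← hk] at h1
    rw [hΛ, ← mul_assoc]
    exact h1
  -- the value `u n`
  have hun : u n = ∑ a : {a // a ∈ Tt}, c a * ∑ m ∈ range k, u m * V a.1 m := by
    have h1 : ∑ m ∈ range k, u m * (∑ a : {a // a ∈ Tt}, c a * V a.1 m) = u n := by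
      rw [Finset.sum_eq_single n]
      · rw [hcm n hn, if_pos rfl, mul_one]
      · intro m hm hmn
        rw [hcm m (mem_range.1 hm), if_neg hmn, mul_zero]
      · intro h
        exact absurd (mem_range.2 hn) h
    rw [← h1]
    simp only [mul_sum]
    rw [sum_comm]
    refine sum_congr rfl fun a _ => sum_congr rfl fun m _ => ?_
    ring
  have hΛ0 : 0 ≤ Λ := by
    rw [hΛ]
    positivity
  have h5 : ‖u n‖ ≤ k * ((ρ ^ n)⁻¹ * Λ * E) := by
    rw [hun]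
    refine (norm_sum_le _ _).trans ?_
    have h6 : ∀ a ∈ (univ : Finset {a // a ∈ Tt}),
        ‖c a * ∑ m ∈ range k, u m * V a.1 m‖ ≤ (ρ ^ n)⁻¹ * Λ * E := by
      intro a _
      have ha := (hmem a.1.1 a.1.2).1 a.2
      rw [norm_mul]
      refine mul_le_mul (hcb a) ?_ (norm_nonneg _) (by positivity)
      have h7 := hu a.1.1 ha.1 a.1.2 ha.2
      rw [← hk] at h7
      rw [hV]
      exact h7
    refine (sum_le_sum h6).trans ?_
    rw [sum_const, card_univ, Fintype.card_coe, hcard, nsmul_eq_mul]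
  rw [← hk]
  calc ‖u n‖ * ρ ^ n ≤ k * ((ρ ^ n)⁻¹ * Λ * E) * ρ ^ n :=
        mul_le_mul_of_nonneg_right h5 (by positivity)
    _ = k * E * ((2 * ρ) ^ k / Q) * (2 * D * (k : ℝ) / δ) ^ D := by
        rw [hΛ]
        have h8 : ρ ^ n ≠ 0 := by positivity
        field_simp

end Pool.Agent.H60.EE
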