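import Pool.Agent.H30.EE.TargetsI
import Pool.Agent.H97.VG.OP
import Pool.Agent.H30.VG.D0
import Pool.Agent.H17.VG.LL

/-!
# MP_70ba79_ag: local operators (row ILO of the board `ee_modules`)
-/

set_option autoImplicit false

namespace Pool.Agent.H60.EE

open MvPolynomial SC Pool.Agent.H27.LV Pool.Agent.H17.VG Pool.Agent.H30.EE

/-- `opF` of a linear combination of operators -/
lemma ilo_opF_sum {R K : Type} [Field R] [Field K] [Algebra R K] {n : ℕ} {ι : Type}
    (s : Finset ι) (a : ι → K) (τ : ι → Op R K n) (G : MvPolynomial (Fin (n + 1)) K) :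
    opF (∑ i ∈ s, a i • τ i) G = ∑ i ∈ s, C (a i) * opF (τ i) G := by
  classical
  have hOP : T_OP := Pool.Agent.H97.VG.op
  induction s using Finset.induction_on with
  | empty =>
    have h := (hOP R K n 0 (0 : Op R K n) 0 G G 0 0 0).2.2.1
    simpa using h
  | insert i s hi ih =>
    rw [Finset.sum_insert hi, Finset.sum_insert hi, ← ih]
    have h := (hOP R K n 0 (τ i) (∑ i ∈ s, a i • τ i) G G (a i) 1 0).2.2.1
    rw [one_smul, C_1, one_mul] at h
    exact h

lemma ilo_fst_sum {R K : Type} [Field R] [Field K] [Algebra R K] {n : ℕ} {ι : Type}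
    (s : Finset ι) (a : ι → K) (τ : ι → Op R K n) (z : K) :
    (∑ i ∈ s, a i • τ i).1 z = ∑ i ∈ s, a i * (τ i).1 z := by
  classical
  induction s using Finset.induction_on with
  | empty => simp
  | insert i s hi ih =>
    rw [Finset.sum_insert hi, Finset.sum_insert hi, ← ih, Prod.fst_add, Derivation.add_apply]
    rfl

theorem pf_ILO : T_ILO := by
  intro R k K _ _ _ _ _ _ _ _ htr n e F D D' hD hDD hcD hrat v G hG hGv
  have hOP : T_OP := Pool.Agent.H97.VG.op
  have hLL : T_LL := ll Pool.Agent.H30.VG.d0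
  choose τ hτ1 hτ2 using fun M : Mon (n + 1) (e + 1) => hrat (mono k M.1) (isHomogeneous_mono M)
  obtain ⟨l, hl⟩ : ∃ l : Mon (n + 1) (e + 1) → K, ∀ M, l M = (τ M).1 v.unif / D v.unif :=
    ⟨_, fun _ => rfl⟩
  obtain ⟨σ, hσ⟩ : ∃ σ : Mon (n + 1) (e + 1) → Op R K n,
      ∀ M, σ M = (1 : K) • τ M + (-l M) • ((D', 0) : Op R K n) := ⟨_, fun _ => rfl⟩
  have hσF : ∀ M, opF (σ M) (up K F) = mono K M.1 := by
    intro M
    have h1 := (hOP R K n 0 (τ M) ((D', 0) : Op R K n) (up K F) 0 1 (-l M) 0).2.2.1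
    rw [hσ, h1, C_1, one_mul, hτ2]
    have h2 : opF ((D', 0) : Op R K n) (up K F) = 0 := by
      unfold opF
      rw [hcD]
      simp
    rw [h2, mul_zero, add_zero]
    unfold up mono
    rw [map_monomial, map_one]
  have hσ1 : ∀ M z, ge v (v.ord z) ((σ M).1 z) := by
    intro M z
    have h1 : (σ M).1 z = (τ M).1 z - (τ M).1 v.unif / D v.unif * D z := by
      rw [hσ, ← hl, ← hDD z]
      simp only [Prod.fst_add, Prod.smul_fst, Derivation.add_apply, Derivation.smul_apply,
        smul_eq_mul]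
      ring
    rw [h1]
    exact hLL R k K htr (τ M).1 (hτ1 M).1 D hD v z
  have hσ2 : ∀ M i j, ge v 0 ((σ M).2 i j) := by
    intro M i j
    obtain ⟨b, hb⟩ := (hτ1 M).2 i j
    have h1 : (σ M).2 i j = algebraMap k K b := by
      rw [hσ, ← hb]
      simp
    rw [h1]
    exact ge_const v b
  refine ⟨∑ M, G.coeff (fs M.1) • σ M, ⟨?_, ?_⟩, ?_⟩
  · intro z
    rw [ilo_fst_sum]
    refine ge_sum v _ _ _ fun M _ => ?_
    have := (hGv (fs M.1)).mul (hσ1 M z)
    rwa [zero_add] at this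
  · intro i j
    have h1 : (∑ M, G.coeff (fs M.1) • σ M).2 i j = ∑ M, G.coeff (fs M.1) * (σ M).2 i j := by
      rw [Prod.snd_sum, Matrix.sum_apply]
      rfl
    rw [h1]
    refine ge_sum v _ _ _ fun M _ => ?_
    have := (hGv (fs M.1)).mul (hσ2 M i j)
    rwa [zero_add] at this
  · rw [ilo_opF_sum]
    conv_rhs => rw [dec hG]
    exact Finset.sum_congr rfl fun M _ => by rw [hσF]

end Pool.Agent.H60.EE
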