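import Pool.Agent.H30.EE.TargetsG

/-!
# MP_70ba79_ag: heights of curves (row VOL of the board `ee_modules`)
-/

set_option autoImplicit false

namespace Pool.Agent.H60.EE

open MvPolynomial SC Pool.Agent.H27.LV Pool.Agent.H17.VG Pool.Agent.H30.EE

theorem pf_VOL (_hMO : T_MO) (hHG : T_HG) (_hDAI : T_DAI) (_hQDM : T_QDM) (hVLL : T_VLL) :
    T_VOL := by
  intro k K _ _ _ _ _ _ htr n r z hz
  have hfin : ∀ a, {v : DV k K | mo v (mnr (RM a z)) ≠ 0}.Finite := fun a =>
    (hHG k K htr (Fin (r * a + 1) → Mon (n + 1) a) (mnr (RM a z))).1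
  have hnn : ∀ a, 0 ≤ Da k a z := fun a =>
    (hHG k K htr (Fin (r * a + 1) → Mon (n + 1) a) (mnr (RM a z))).2.1
  have hcast : ∀ a, (Da k a z : ℚ) = -∑ᶠ v : DV k K, (mo v (mnr (RM a z)) : ℚ) := by
    intro a
    have h1 : Da k a z = -∑ᶠ v : DV k K, mo v (mnr (RM a z)) := rfl
    rw [h1, Int.cast_neg]
    congr 1
    exact (Int.castAddHom ℚ).map_finsum (hfin a)
  have hfinQ : ∀ (a : ℕ) (c : ℚ),
      (Function.support fun v : DV k K => c * (mo v (mnr (RM a z)) : ℚ)).Finite := by
    intro a c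
    refine (hfin a).subset fun v hv => ?_
    rw [Function.mem_support] at hv
    intro h
    apply hv
    rw [h]
    simp
  have hsup : ∀ a b : ℕ, (r * (a + b) + 1 : ℚ) / (r * a + 1) * Da k a z +
      (r * (a + b) + 1 : ℚ) / (r * b + 1) * Da k b z ≤ Da k (a + b) z := by
    intro a b
    rw [hcast a, hcast b, hcast (a + b)]
    have h1 : ∑ᶠ v : DV k K, (mo v (mnr (RM (a + b) z)) : ℚ) ≤
        ∑ᶠ v : DV k K, ((r * (a + b) + 1 : ℚ) / (r * a + 1) * mo v (mnr (RM a z)) +
          (r * (a + b) + 1 : ℚ) / (r * b + 1) * mo v (mnr (RM b z))) := by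
      refine finsum_le_finsum' ?_ ?_ fun v => hVLL k K v n r a b z hz
      · have h0 := hfinQ (a + b) 1
        simp only [one_mul] at h0
        exact h0
      · exact ((hfinQ a _).union (hfinQ b _)).subset (Function.support_add _ _)
    rw [finsum_add_distrib (hfinQ a _) (hfinQ b _), ← mul_finsum, ← mul_finsum] at h1
    linarith
  have hp : ∀ a : ℕ, (0 : ℚ) < r * a + 1 := fun a => by positivity
  refine ⟨fun a => ⟨hnn a, ?_⟩, fun b => ?_⟩
  · have h1 := hsup a 1
    have h2 : (0 : ℚ) ≤ Da k a z := by exact_mod_cast hnn a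
    have h3 : (0 : ℚ) ≤ Da k 1 z := by exact_mod_cast hnn 1
    have h4 : (0 : ℚ) ≤ (r * (a + (1 : ℕ)) + 1 : ℚ) / (r * (1 : ℕ) + 1) * Da k 1 z := by positivity
    have h5 : (1 : ℚ) ≤ (r * (a + (1 : ℕ)) + 1 : ℚ) / (r * a + 1) := by
      rw [le_div_iff₀ (hp a)]
      have : (0 : ℚ) ≤ r := by positivity
      push_cast
      nlinarith
    have h6 : (Da k a z : ℚ) ≤ Da k (a + 1) z := by nlinarith
    exact_mod_cast h6
  · have key : ∀ b : ℕ, (b : ℚ) * Da k 2 z / (2 * r + 1) ≤ Da k (2 * b) z / (2 * r * b + 1) := by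
      intro b
      induction b with
      | zero =>
        have h1 : (0 : ℚ) ≤ Da k (2 * 0) z := by exact_mod_cast hnn (2 * 0)
        simp only [Nat.cast_zero, zero_mul, zero_div, mul_zero, zero_add, div_one]
        exact h1
      | succ b ih =>
        have h1 := hsup (2 * b) 2
        have e1 : 2 * (b + 1) = 2 * b + 2 := by ring
        rw [e1]
        have h2 : (0 : ℚ) < 2 * r * (b + 1 : ℕ) + 1 := by positivity
        have h3 : (0 : ℚ) < 2 * r * b + 1 := by positivity
        have h4 : (0 : ℚ) < 2 * r + 1 := by positivity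
        have h5 : ((2 * r * (b + 1 : ℕ) + 1 : ℚ)) * (Da k (2 * b) z / (2 * r * b + 1) +
            Da k 2 z / (2 * r + 1)) ≤ Da k (2 * b + 2) z := by
          refine le_trans (le_of_eq ?_) h1
          push_cast
          have h6 : (r * (2 * b) + 1 : ℚ) = 2 * r * b + 1 := by ring
          have h7 : (r * 2 + 1 : ℚ) = 2 * r + 1 := by ring
          have h8 : (r * (2 * b + 2) + 1 : ℚ) = 2 * r * (b + 1) + 1 := by ring
          rw [h6, h7, h8]
          ring
        rw [le_div_iff₀ h2]
        have h9 : ((b + 1 : ℕ) : ℚ) * Da k 2 z / (2 * r + 1) =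
            b * Da k 2 z / (2 * r + 1) + Da k 2 z / (2 * r + 1) := by
          push_cast
          ring
        rw [h9]
        refine le_trans ?_ h5
        rw [mul_comm]
        refine mul_le_mul_of_nonneg_left ?_ h2.le
        linarith
    have h1 := key b
    have h3 : (0 : ℚ) < 2 * r * b + 1 := by positivity
    have h4 : (0 : ℚ) < 2 * r + 1 := by positivity
    rw [div_le_div_iff₀ h4 h3] at h1
    have h2 : ((b * (2 * r * b + 1) : ℤ) * Da k 2 z : ℚ) ≤ (2 * r + 1) * Da k (2 * b) z := by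
      push_cast
      linarith
    exact_mod_cast h2

end Pool.Agent.H60.EE
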